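import Pool.Agent.Helper10.AB.GoalsF1

/-!
# Project AB, packet TIB: integration by parts in the torus integral
-/

open MeasureTheory Set Filter Topology
open scoped ContDiff

noncomputable section

namespace Pool.Agent.Helper65.AB

open Pool.Agent.Helper24.AB Pool.Agent.Helper10.AB

/-- The integral of a one-variable derivative of a periodic function over the cube vanishes. -/
lemma tib_zero (j : Fin 3) (H H' : (Fin 3 → ℝ) → ℂ) (_hH : Continuous H) (hH' : Continuous H')
    (hper : ∀ θ k, H (tr2 θ k) = H θ)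
    (hd : ∀ θ, HasDerivAt (fun x : ℝ => H (Function.update θ j x)) (H' θ) (θ j)) :
    ∫ θ in T3, H' θ = 0 := by
  have hmp := volume_preserving_piFinSuccAbove (fun _ : Fin 3 => ℝ) j
  set e := MeasurableEquiv.piFinSuccAbove (fun _ : Fin 3 => ℝ) j with he
  set S : Set (ℝ × (Fin 2 → ℝ)) :=
    Set.Ico 0 (2 * Real.pi) ×ˢ Set.pi Set.univ (fun _ => Set.Ico 0 (2 * Real.pi)) with hS
  have hT : T3 = e ⁻¹' S := by
    ext θ
    simp only [T3, hS, Set.mem_pi, Set.mem_univ, true_imp_iff, Set.mem_preimage, Set.mem_prod]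
    constructor
    · intro h
      exact ⟨h j, fun i => h (j.succAbove i)⟩
    · rintro ⟨h1, h2⟩ i
      rcases Fin.eq_self_or_eq_succAbove j i with hi | ⟨i', hi⟩
      · rw [hi]; exact h1
      · rw [hi]; exact h2 i'
  have hF : ∀ z : ℝ × (Fin 2 → ℝ), e.symm z = j.insertNth z.1 z.2 := by
    intro z
    rfl
  have hins : Continuous (fun z : ℝ × (Fin 2 → ℝ) => (j.insertNth z.1 z.2 : Fin 3 → ℝ)) := by
    refine continuous_pi fun i => ?_
    rcases Fin.eq_self_or_eq_succAbove j i with hi | ⟨i', hi⟩
    · subst hi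
      simpa using continuous_fst
    · subst hi
      simp only [Fin.insertNth_apply_succAbove]
      exact (continuous_apply i').comp continuous_snd
  have h1 : ∫ θ in T3, H' θ = ∫ z in S, H' (j.insertNth z.1 z.2) := by
    have := hmp.setIntegral_preimage_emb e.measurableEmbedding (fun z => H' (e.symm z)) S
    simp only [MeasurableEquiv.symm_apply_apply] at this
    rw [hT]
    exact this
  have hK : S ⊆ Set.Icc 0 (2 * Real.pi) ×ˢ Set.pi Set.univ (fun _ => Set.Icc 0 (2 * Real.pi)) := by
    apply Set.prod_mono Set.Ico_subset_Icc_self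
    exact Set.pi_mono fun i _ => Set.Ico_subset_Icc_self
  have hc : Continuous (fun z : ℝ × (Fin 2 → ℝ) => H' (j.insertNth z.1 z.2)) := hH'.comp hins
  have hint : IntegrableOn (fun z : ℝ × (Fin 2 → ℝ) => H' (j.insertNth z.1 z.2)) S
      (volume.prod volume) := by
    refine IntegrableOn.mono_set (t := Set.Icc 0 (2 * Real.pi) ×ˢ
      Set.pi Set.univ (fun _ => Set.Icc 0 (2 * Real.pi))) ?_ hK
    refine hc.continuousOn.integrableOn_compact ?_
    exact isCompact_Icc.prod (isCompact_univ_pi fun _ => isCompact_Icc)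
  rw [h1]
  have h2 : ∫ z in S, H' (j.insertNth z.1 z.2) =
      ∫ y in Set.pi Set.univ (fun _ : Fin 2 => Set.Ico 0 (2 * Real.pi)),
        ∫ x in Set.Ico 0 (2 * Real.pi), H' (j.insertNth x y) := by
    rw [Measure.volume_eq_prod, hS, ← Measure.prod_restrict]
    rw [integral_prod_symm]
    rw [Measure.prod_restrict]
    exact hint
  rw [h2]
  have h3 : ∀ y : Fin 2 → ℝ, ∫ x in Set.Ico 0 (2 * Real.pi), H' (j.insertNth x y) = 0 := by
    intro y
    rw [integral_Ico_eq_integral_Ioo, ← integral_Ioc_eq_integral_Ioo,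
      ← intervalIntegral.integral_of_le (by positivity)]
    have hder : ∀ x : ℝ, HasDerivAt (fun x : ℝ => H (j.insertNth x y)) (H' (j.insertNth x y)) x := by
      intro x
      have := hd (j.insertNth x y)
      simpa [Fin.update_insertNth] using this
    rw [intervalIntegral.integral_eq_sub_of_hasDerivAt (fun x _ => hder x)]
    · have : (j.insertNth (2 * Real.pi) y : Fin 3 → ℝ) =
          tr2 (j.insertNth 0 y) (Pi.single j 1) := by
        funext i
        rcases Fin.eq_self_or_eq_succAbove j i with hi | ⟨i', hi⟩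
        · subst hi
          simp [tr2]
        · subst hi
          simp [tr2]
      rw [this, hper, sub_self]
    · apply Continuous.intervalIntegrable
      exact hc.comp (continuous_id.prodMk continuous_const)
  simp [h3]

theorem tib : S_TIB := by
  intro j φ φ' hφ hφ' hd J
  have hcexp : Continuous (fun θ : Fin 3 → ℝ => Complex.exp (-(Complex.I * (Jd J θ : ℝ)))) := by
    unfold Jd
    fun_prop
  have hupd : ∀ (θ : Fin 3 → ℝ) (x : ℝ), Jd J (Function.update θ j x) =
      Jd J θ + J j * (x - θ j) := by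
    intro θ x
    fin_cases j <;> simp [Jd] <;> ring
  have htr : ∀ (θ : Fin 3 → ℝ) (k : Fin 3 → ℤ),
      Complex.exp (-(Complex.I * (Jd J (tr2 θ k) : ℝ))) =
        Complex.exp (-(Complex.I * (Jd J θ : ℝ))) := by
    intro θ k
    rw [Complex.exp_eq_exp_iff_exists_int]
    refine ⟨-(J 0 * k 0 + J 1 * k 1 + J 2 * k 2), ?_⟩
    simp only [Jd, tr2]
    push_cast
    ring
  have h0 := tib_zero j (fun θ => φ θ * Complex.exp (-(Complex.I * (Jd J θ : ℝ))))
    (fun θ => φ' θ * Complex.exp (-(Complex.I * (Jd J θ : ℝ))) -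
      Complex.I * (J j : ℂ) * (φ θ * Complex.exp (-(Complex.I * (Jd J θ : ℝ)))))
    (hφ.1.mul hcexp) ((hφ'.1.mul hcexp).sub (continuous_const.mul (hφ.1.mul hcexp)))
    (by intro θ k; simp only [hφ.2, htr])
    (by
      intro θ
      have h1 := hd θ
      have h2 : HasDerivAt (fun x : ℝ =>
          Complex.exp (-(Complex.I * (Jd J (Function.update θ j x) : ℝ))))
          (Complex.exp (-(Complex.I * (Jd J θ : ℝ))) * (-(Complex.I * (J j : ℂ)))) (θ j) := by
        have h3 : HasDerivAt (fun x : ℝ => (-(Complex.I * ((Jd J θ + J j * (x - θ j) : ℝ) : ℂ))))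
            (-(Complex.I * (J j : ℂ))) (θ j) := by
          have h4 : HasDerivAt (fun x : ℝ => (Jd J θ + J j * (x - θ j) : ℝ)) (J j : ℝ) (θ j) := by
            have := (((hasDerivAt_id (θ j)).sub_const (θ j)).const_mul (J j : ℝ)).const_add (Jd J θ)
            simpa using this
          have := (h4.ofReal_comp.const_mul Complex.I).fun_neg
          simpa using this
        have := h3.cexp
        simp only [sub_self, mul_zero, add_zero] at this
        simpa only [hupd] using this
      have h5 := h1.mul h2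
      simp only [Function.update_eq_self] at h5
      refine h5.congr_deriv ?_
      ring)
  have hc1 : Continuous (fun θ => φ θ * Complex.exp (-(Complex.I * (Jd J θ : ℝ)))) :=
    hφ.1.mul hcexp
  have hc2 : Continuous (fun θ => φ' θ * Complex.exp (-(Complex.I * (Jd J θ : ℝ)))) :=
    hφ'.1.mul hcexp
  have hI : ∀ ψ : (Fin 3 → ℝ) → ℂ, Continuous ψ → IntegrableOn ψ T3 := by
    intro ψ hψ
    refine IntegrableOn.mono_set (t := Set.pi Set.univ (fun _ => Set.Icc 0 (2 * Real.pi))) ?_ ?_
    · exact hψ.continuousOn.integrableOn_compact (isCompact_univ_pi fun _ => isCompact_Icc)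
    · exact Set.pi_mono fun i _ => Set.Ico_subset_Icc_self
  rw [integral_sub (hI _ hc2) ((hI _ hc1).const_mul _), integral_const_mul] at h0
  unfold tm
  rw [sub_eq_zero.mp h0]
  ring

end Pool.Agent.Helper65.AB
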